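import Pool.Agent.H438R3.BSD.Gen3

/-! Continuation of a Dirichlet series with nonnegative coefficients whose exponential, up to a power
of `s - 1` in the exponent, is analytic at the points of a real half line. -/

set_option autoImplicit false

open Complex Filter Topology Set

namespace Pool.Agent.H56R3.BSD

open Pool.Agent.H438R3.BSD

lemma preconn_ray (t : ℝ) : IsPreconnected ((fun x : ℝ => (x : ℂ)) '' Set.Ioi t) :=
  isPreconnected_Ioi.image _ Complex.continuous_ofReal.continuousOn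

/-- the identity theorem along a real half line -/
theorem ray_eq {F R : ℂ → ℂ} {t b : ℝ} (hF : ∀ σ : ℝ, t < σ → AnalyticAt ℂ F σ)
    (hR : ∀ σ : ℝ, t < σ → AnalyticAt ℂ R σ) (hb : t < b) (h : F =ᶠ[𝓝 (b : ℂ)] R) :
    ∀ σ : ℝ, t < σ → F =ᶠ[𝓝 (σ : ℂ)] R := by
  have h1 : AnalyticOnNhd ℂ F ((fun x : ℝ => (x : ℂ)) '' Set.Ioi t) := by
    rintro _ ⟨x, hx, rfl⟩
    exact hF x hx
  have h2 : AnalyticOnNhd ℂ R ((fun x : ℝ => (x : ℂ)) '' Set.Ioi t) := by
    rintro _ ⟨x, hx, rfl⟩
    exact hR x hx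
  have h3 := h1.eqOn_of_preconnected_of_eventuallyEq h2 (preconn_ray t) (z₀ := (b : ℂ))
    ⟨b, hb, rfl⟩ h
  intro σ hσ
  refine ((hF σ hσ).frequently_eq_iff_eventually_eq (hR σ hσ)).1 ?_
  have h4 : Tendsto (fun x : ℝ => (x : ℂ)) (𝓝[≠] σ) (𝓝[≠] (σ : ℂ)) := by
    refine tendsto_nhdsWithin_of_tendsto_nhds_of_eventually_within _
      (Complex.continuous_ofReal.continuousAt.mono_left nhdsWithin_le_nhds) ?_
    filter_upwards [self_mem_nhdsWithin] with x hx
    intro hcon
    exact hx (Complex.ofReal_injective hcon)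
  refine h4.frequently ?_
  have h5 : ∀ᶠ x : ℝ in 𝓝[≠] σ, F (x : ℂ) = R (x : ℂ) := by
    filter_upwards [mem_nhdsWithin_of_mem_nhds (Ioi_mem_nhds hσ)] with x hx
    exact h3 ⟨x, hx, rfl⟩
  exact h5.frequently

theorem coreR (G : ℕ → ℝ) (hG : ∀ n, 0 ≤ G n) (j : ℕ) (F W : ℂ → ℂ)
    (hF0 : ∀ σ : ℝ, 1 < σ → σ ≤ 3 / 2 → AnalyticAt ℂ F σ) (hW : DifferentiableOn ℂ W {s | 1 < s.re})
    (hsum : ∀ s : ℂ, 3 / 2 < s.re → LSeriesSummable (fun n => (G n : ℂ)) s)
    (hrel : ∀ s : ℂ, 3 / 2 < s.re →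
      F s = exp (W s + (s - 1) ^ j * LSeries (fun n => (G n : ℂ)) s)) :
    LSeries.abscissaOfAbsConv (fun n => (G n : ℂ)) ≤ ((1 : ℝ) : EReal) ∧
    ∀ σ : ℝ, 1 < σ → F =ᶠ[𝓝 (σ : ℂ)]
      fun s => exp (W s + (s - 1) ^ j * LSeries (fun n => (G n : ℂ)) s) := by
  set a : ℕ → ℂ := fun n => (G n : ℂ) with ha
  have hup : LSeries.abscissaOfAbsConv a ≤ ((3 / 2 : ℝ) : EReal) :=
    LSeries.abscissaOfAbsConv_le_of_forall_lt_LSeriesSummable fun y hy =>
      hsum y (by simpa using hy)
  have hF : ∀ σ : ℝ, 1 < σ → AnalyticAt ℂ F σ := by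
    intro σ hσ
    rcases le_or_gt σ (3 / 2) with h | h
    · exact hF0 σ hσ h
    · have hWa : AnalyticAt ℂ W (σ : ℂ) :=
        (hW.analyticOnNhd (Pool.Agent.H438R3.BSD.isOpen_re_gt 1)) σ
          (by simp only [mem_ofPred_eq, ofReal_re]; linarith)
      have hLa : AnalyticAt ℂ (LSeries a) (σ : ℂ) := by
        refine LSeries_analyticOnNhd a σ ?_
        show LSeries.abscissaOfAbsConv a < (((σ : ℂ)).re : EReal)
        simp only [ofReal_re]
        exact lt_of_le_of_lt hup (by exact_mod_cast h)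
      have hRa : AnalyticAt ℂ (fun s => exp (W s + (s - 1) ^ j * LSeries a s)) (σ : ℂ) :=
        (hWa.add (((analyticAt_id.sub analyticAt_const).pow j).mul hLa)).cexp
      refine hRa.congr ?_
      have : {s : ℂ | 3 / 2 < s.re} ∈ 𝓝 (σ : ℂ) :=
        (Pool.Agent.H438R3.BSD.isOpen_re_gt (3 / 2)).mem_nhds
          (by simp only [mem_ofPred_eq, ofReal_re]; exact h)
      filter_upwards [this] with s hs
      exact (hrel s hs).symm
  have hspread : ∀ t : ℝ, 1 ≤ t → t ≤ 3 / 2 → LSeries.abscissaOfAbsConv a ≤ (t : EReal) →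
      ∀ σ : ℝ, t < σ → F =ᶠ[𝓝 (σ : ℂ)] fun s => exp (W s + (s - 1) ^ j * LSeries a s) := by
    intro t ht ht2 habs
    refine ray_eq (fun σ hσ => hF σ (by linarith)) (fun σ hσ => ?_) (b := 2) (by linarith) ?_
    · have hWa : AnalyticAt ℂ W (σ : ℂ) :=
        (hW.analyticOnNhd (Pool.Agent.H438R3.BSD.isOpen_re_gt 1)) σ (by simp only [mem_ofPred_eq, ofReal_re]; linarith)
      have hLa : AnalyticAt ℂ (LSeries a) (σ : ℂ) := by
        refine LSeries_analyticOnNhd a σ ?_
        show LSeries.abscissaOfAbsConv a < (((σ : ℂ)).re : EReal)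
        simp only [ofReal_re]
        exact lt_of_le_of_lt habs (by exact_mod_cast hσ)
      exact (hWa.add (((analyticAt_id.sub analyticAt_const).pow j).mul hLa)).cexp
    · have : {s : ℂ | 3 / 2 < s.re} ∈ 𝓝 ((2 : ℝ) : ℂ) :=
        (Pool.Agent.H438R3.BSD.isOpen_re_gt (3 / 2)).mem_nhds (by simp only [mem_ofPred_eq, ofReal_re]; norm_num)
      filter_upwards [this] with s hs
      exact hrel s hs
  -- the abscissa is at most 1
  have hone : LSeries.abscissaOfAbsConv a ≤ ((1 : ℝ) : EReal) := by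
    by_contra hcon
    push Not at hcon
    obtain ⟨a0, ha0⟩ : ∃ a0 : ℝ, LSeries.abscissaOfAbsConv a = (a0 : EReal) := by
      induction h : LSeries.abscissaOfAbsConv a using EReal.rec with
      | bot => rw [h] at hcon; exact absurd hcon (by simp)
      | coe x => exact ⟨x, rfl⟩
      | top => rw [h] at hup; exact absurd hup (by simp)
    rw [ha0] at hcon hup
    have h1a : 1 < a0 := by exact_mod_cast hcon
    have ha32 : a0 ≤ 3 / 2 := by exact_mod_cast hup
    have hR := hspread a0 h1a.le ha32 ha0.le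
    have hWc : ContinuousAt W (a0 : ℂ) :=
      (hW.differentiableAt ((Pool.Agent.H438R3.BSD.isOpen_re_gt 1).mem_nhds (by simpa using h1a))).continuousAt
    have hFc : ContinuousAt F (a0 : ℂ) := (hF a0 h1a).continuousAt
    -- `F a0 ≠ 0`
    have hFa0 : F a0 ≠ 0 := by
      intro h0
      have t1 : Tendsto (fun σ : ℝ => ‖F σ‖) (𝓝[>] a0) (𝓝 ‖F a0‖) := by
        have : ContinuousAt (fun σ : ℝ => ‖F σ‖) a0 :=
          (ContinuousAt.comp (f := fun σ : ℝ => (σ : ℂ)) hFc
            Complex.continuous_ofReal.continuousAt).norm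
        exact this.tendsto.mono_left nhdsWithin_le_nhds
      have t2 : Tendsto (fun σ : ℝ => Real.exp (W σ).re) (𝓝[>] a0) (𝓝 (Real.exp (W a0).re)) := by
        have hc : ContinuousAt (fun σ : ℝ => Real.exp (W σ).re) a0 := by
          apply Real.continuous_exp.continuousAt.comp
          apply Complex.continuous_re.continuousAt.comp
          exact ContinuousAt.comp (f := fun σ : ℝ => (σ : ℂ)) hWc Complex.continuous_ofReal.continuousAt
        exact hc.tendsto.mono_left nhdsWithin_le_nhds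
      have h3 : Real.exp (W a0).re ≤ ‖F a0‖ := by
        refine le_of_tendsto_of_tendsto t2 t1 ?_
        filter_upwards [self_mem_nhdsWithin] with σ hσ
        have hσ' : a0 < σ := hσ
        rw [(hR σ hσ').eq_of_nhds, Complex.norm_exp]
        apply Real.exp_le_exp.2
        simp only [add_re]
        have h4 := re_LSeries_nonneg G hG σ
        have h5 : (((σ : ℂ) - 1) ^ j * LSeries a σ).re = (σ - 1) ^ j * (LSeries a σ).re := by
          have : ((σ : ℂ) - 1) ^ j = (((σ - 1) ^ j : ℝ) : ℂ) := by push_cast; ring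
          rw [this, Complex.re_ofReal_mul]
        rw [h5]
        have h6 : 0 ≤ (σ - 1) ^ j * (LSeries a σ).re :=
          mul_nonneg (pow_nonneg (by linarith) _) h4
        linarith
      rw [h0, norm_zero] at h3
      exact absurd h3 (not_le.2 (Real.exp_pos _))
    -- a logarithm near `a0`
    have hq : ContinuousAt (fun s => F s / F a0) (a0 : ℂ) := hFc.div_const _
    obtain ⟨r1, hr1, hball⟩ := Metric.continuousAt_iff.1 hq 1 one_pos
    obtain ⟨r2, hr2, hball2⟩ := Metric.eventually_nhds_iff_ball.1 (hF a0 h1a).eventually_analyticAt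
    set r := min (min r1 r2) (a0 - 1) with hr
    have hr0 : 0 < r := lt_min (lt_min hr1 hr2) (by linarith)
    have hslit : ∀ s ∈ Metric.ball (a0 : ℂ) r, F s / F a0 ∈ slitPlane := by
      intro s hs
      have h2 := hball (lt_of_lt_of_le (Metric.mem_ball.1 hs)
        ((min_le_left _ _).trans (min_le_left _ _)))
      rw [div_self hFa0, dist_eq_norm] at h2
      have h3 := Complex.mem_slitPlane_of_norm_lt_one h2
      simpa using h3
    have hFan : ∀ s ∈ Metric.ball (a0 : ℂ) r, AnalyticAt ℂ F s := fun s hs =>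
      hball2 s (Metric.ball_subset_ball ((min_le_left _ _).trans (min_le_right _ _)) hs)
    have hre : ∀ s ∈ Metric.ball (a0 : ℂ) r, 1 < s.re := by
      intro s hs
      have h2 : ‖s - a0‖ < a0 - 1 := by
        have := Metric.mem_ball.1 hs
        rw [dist_eq_norm] at this
        exact lt_of_lt_of_le this (min_le_right _ _)
      have h3 := (abs_lt.1 ((Complex.abs_re_le_norm (s - a0)).trans_lt h2)).1
      simp only [sub_re, ofReal_re] at h3
      linarith
    set Lg : ℂ → ℂ := fun s => Complex.log (F s / F a0) + Complex.log (F a0) with hLg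
    have hLgd : DifferentiableOn ℂ Lg (Metric.ball (a0 : ℂ) r) := by
      intro s hs
      have h2 : DifferentiableAt ℂ (fun s => F s / F a0) s :=
        (hFan s hs).differentiableAt.div_const _
      exact ((h2.clog (hslit s hs)).add_const _).differentiableWithinAt
    have hexpLg : ∀ s ∈ Metric.ball (a0 : ℂ) r, exp (Lg s) = F s := by
      intro s hs
      rw [hLg]
      simp only
      have h2 := Complex.slitPlane_ne_zero (hslit s hs)
      rw [Complex.exp_add, Complex.exp_log h2, Complex.exp_log hFa0, div_mul_cancel₀ _ hFa0]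
    set c : ℝ := a0 + r / 4 with hc
    have hac : a0 < c := by rw [hc]; linarith
    have hsub : Metric.ball (c : ℂ) (r / 2) ⊆ Metric.ball (a0 : ℂ) r := by
      apply Metric.ball_subset_ball'
      rw [dist_eq_norm]
      have : (c : ℂ) - a0 = ((r / 4 : ℝ) : ℂ) := by rw [hc]; push_cast; ring
      rw [this, Complex.norm_real, Real.norm_eq_abs, abs_of_pos (by positivity)]
      linarith
    have hLc : ContinuousAt (LSeries a) (c : ℂ) :=
      (LSeries_analyticOnNhd a (c : ℂ) (by
        show LSeries.abscissaOfAbsConv a < (((c : ℂ)).re : EReal)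
        rw [ha0]
        simp only [ofReal_re]
        exact_mod_cast hac)).continuousAt
    have hcmem : (c : ℂ) ∈ Metric.ball (a0 : ℂ) r := hsub (Metric.mem_ball_self (by positivity))
    set φ : ℂ → ℂ := fun s => Lg s - W s - (s - 1) ^ j * LSeries a s with hφ
    have hφc : ContinuousAt φ (c : ℂ) := by
      apply ContinuousAt.sub
      · apply ContinuousAt.sub
        · exact (hLgd.differentiableAt (Metric.isOpen_ball.mem_nhds hcmem)).continuousAt
        · exact (hW.differentiableAt ((Pool.Agent.H438R3.BSD.isOpen_re_gt 1).mem_nhds (hre _ hcmem))).continuousAt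
      · apply ContinuousAt.mul _ hLc
        fun_prop
    have hev : ∀ᶠ s in 𝓝 (c : ℂ), exp (φ s) = 1 := by
      filter_upwards [Metric.isOpen_ball.mem_nhds hcmem, hR c hac] with s hs1 hs2
      have h3 := hexpLg s hs1
      rw [hs2] at h3
      have h5 : φ s = Lg s - (W s + (s - 1) ^ j * LSeries a s) := by rw [hφ]; ring
      rw [h5, Complex.exp_sub, h3, div_self (Complex.exp_ne_zero _)]
    have hconst : ∀ᶠ s in 𝓝 (c : ℂ), φ s = φ c := by
      have h2 : ∀ᶠ s in 𝓝 (c : ℂ), ‖φ s - φ c‖ < 2 * Real.pi := by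
        have := (Metric.tendsto_nhds.1 hφc) (2 * Real.pi) (by positivity)
        filter_upwards [this] with s hs
        rwa [dist_eq_norm] at hs
      filter_upwards [hev, h2] with s hs1 hs2
      have h3 : exp (φ s - φ c) = 1 := by
        rw [Complex.exp_sub, hs1, hev.self_of_nhds, div_one]
      rw [Complex.exp_eq_one_iff] at h3
      obtain ⟨n, hn⟩ := h3
      rw [hn] at hs2
      have h4 : ‖(n : ℂ) * (2 * Real.pi * I)‖ = |(n : ℝ)| * (2 * Real.pi) := by
        rw [norm_mul, norm_mul, norm_mul, Complex.norm_I, mul_one, Complex.norm_real,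
          Real.norm_eq_abs, abs_of_pos Real.pi_pos]
        simp
      rw [h4] at hs2
      have h5 : |(n : ℝ)| < 1 := by
        by_contra hcon
        push Not at hcon
        have := mul_le_mul_of_nonneg_right hcon (by positivity : 0 ≤ 2 * Real.pi)
        linarith
      have h6 : n = 0 := by
        have : |n| < 1 := by exact_mod_cast h5
        rwa [Int.abs_lt_one_iff] at this
      rw [h6] at hn
      simp only [Int.cast_zero, zero_mul] at hn
      exact sub_eq_zero.1 hn
    set H : ℂ → ℂ := fun s => (Lg s - W s - φ c) / (s - 1) ^ j with hH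
    have hne1 : ∀ s ∈ Metric.ball (a0 : ℂ) r, s - 1 ≠ 0 := by
      intro s hs h0
      have h2 := hre s hs
      have h3 : s = 1 := sub_eq_zero.1 h0
      rw [h3] at h2
      simp at h2
    have hHd : DifferentiableOn ℂ H (Metric.ball (c : ℂ) (r / 2)) := by
      apply DifferentiableOn.div _ (by fun_prop) (fun s hs => pow_ne_zero _ (hne1 s (hsub hs)))
      apply DifferentiableOn.sub_const
      exact (hLgd.mono hsub).sub (hW.mono (fun s hs => hre s (hsub hs)))
    have hHe : ∀ᶠ s in 𝓝 (c : ℂ), H s = LSeries a s := by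
      filter_upwards [hconst, Metric.isOpen_ball.mem_nhds hcmem] with s hs1 hs2
      rw [hH]
      simp only
      rw [← hs1, hφ]
      simp only
      rw [div_eq_iff (pow_ne_zero _ (hne1 s hs2))]
      ring
    have hcontr := landau_disc G hG H c (r / 2) (by positivity) hHd (by
      show LSeries.abscissaOfAbsConv a < (c : EReal)
      rw [ha0]
      exact_mod_cast hac) hHe (a0 - r / 8) (by rw [hc]; linarith)
      (by rw [hc]; linarith)
    have h7 := hcontr.abscissaOfAbsConv_le
    rw [ha0] at h7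
    simp only [ofReal_re] at h7
    have h8 : a0 ≤ a0 - r / 8 := by exact_mod_cast h7
    linarith
  exact ⟨hone, hspread 1 le_rfl (by norm_num) hone⟩

/-- `coreR` with a sign -/
theorem coreE (G : ℕ → ℝ) (hG : ∀ n, 0 ≤ G n) (ε : ℝ) (hε : ε = 1 ∨ ε = -1) (j : ℕ) (F W : ℂ → ℂ)
    (hF1 : ε = 1 → ∀ σ : ℝ, 1 < σ → σ ≤ 3 / 2 → AnalyticAt ℂ F σ)
    (hF2 : ε = -1 → ∀ σ : ℝ, 1 < σ → σ ≤ 3 / 2 → AnalyticAt ℂ (fun s => (F s)⁻¹) σ)
    (hW : DifferentiableOn ℂ W {s | 1 < s.re})
    (hsum : ∀ s : ℂ, 3 / 2 < s.re → LSeriesSummable (fun n => (G n : ℂ)) s)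
    (hrel : ∀ s : ℂ, 3 / 2 < s.re →
      F s = exp (W s + ε * (s - 1) ^ j * LSeries (fun n => (G n : ℂ)) s)) :
    LSeries.abscissaOfAbsConv (fun n => (G n : ℂ)) ≤ ((1 : ℝ) : EReal) ∧
    ∀ σ : ℝ, 1 < σ → F =ᶠ[𝓝 (σ : ℂ)]
      fun s => exp (W s + ε * (s - 1) ^ j * LSeries (fun n => (G n : ℂ)) s) := by
  rcases hε with h | h
  · obtain ⟨h1, h2⟩ := coreR G hG j F W (hF1 h) hW hsum (fun s hs => by
      rw [hrel s hs, h]; push_cast; rw [one_mul])
    refine ⟨h1, fun σ hσ => (h2 σ hσ).trans ?_⟩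
    refine Filter.Eventually.of_forall fun s => ?_
    rw [h]
    push_cast
    rw [one_mul]
  · obtain ⟨h1, h2⟩ := coreR G hG j (fun s => (F s)⁻¹) (fun s => -W s) (hF2 h) hW.neg hsum
      (fun s hs => by
        rw [hrel s hs, h, ← Complex.exp_neg]
        congr 1
        push_cast
        ring)
    refine ⟨h1, fun σ hσ => ?_⟩
    filter_upwards [h2 σ hσ] with s hs
    rw [← inv_inv (F s), hs, h, ← Complex.exp_neg]
    congr 1
    push_cast
    ring

end Pool.Agent.H56R3.BSD
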