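import Pool.Agent.H56R3.BSD.CoreR

/-! One-sided bounds for the partial Euler products at the centre, when the Euler product continues
to a neighbourhood of a real half line. The two proofs below are adapted from `Gen`. -/

set_option autoImplicit false

open Complex Filter Topology Finset

namespace Pool.Agent.H56R3.BSD

open Pool.Agent.H438R3.BSD Pool.Agent.H438R3.BSD.Gen

/-- the function given by the Euler product has an analytic continuation without zeros to the half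
plane `Re s > 1` -/
def Cont (F : ℂ → ℂ) : Prop :=
  ∃ H : ℂ → ℂ, DifferentiableOn ℂ H {s | 1 < s.re} ∧ (∀ s : ℂ, 1 < s.re → H s ≠ 0) ∧
    ∀ s : ℂ, 3 / 2 < s.re → H s = F s

variable {LL : ℕ → ℂ → ℂ} {ell : ℕ → ℝ} {A : ℝ}

/-- The abstract theorem. -/
theorem main_absR (h : Loc LL ell A) (ε κ C : ℝ) (hε : ε = 1 ∨ ε = -1)
    (hG : ∀ n, 0 ≤ PS C (mm ell ε κ) n) (F : ℂ → ℂ)
    (hprod : ∀ s : ℂ, 3 / 2 < s.re → HasProd (fun p : ℕ => exp (LL p s)) (F s))
    (hF1 : ε = 1 → ∀ σ : ℝ, 1 < σ → σ ≤ 3 / 2 → AnalyticAt ℂ F σ)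
    (hF2 : ε = -1 → ∀ σ : ℝ, 1 < σ → σ ≤ 3 / 2 → AnalyticAt ℂ (fun s => (F s)⁻¹) σ) :
    Cont F ∧
    ∃ K : ℝ, ∀ᶠ w : ℝ in 𝓝[>] 0, ε * (κ * Real.log w) - K ≤ ε * Real.log ‖F (1 + w)‖ := by
  have hε1 : |ε| = 1 := by rcases hε with h | h <;> rw [h] <;> simp
  have hε2 : (ε : ℂ) * ε = 1 := by
    rcases hε with h | h <;> rw [h] <;> push_cast <;> ring
  have hε3 : ε * ε = 1 := by rcases hε with h | h <;> rw [h] <;> norm_num
  have hApos := h.pos
  set m := mm ell ε κ with hm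
  set Kc : ℝ := |C| + 2 * (|κ| + A) with hKc
  have hKc0 : 0 ≤ Kc := by positivity
  have hPS : ∀ n : ℕ, 1 ≤ n → |PS C m n| ≤ Kc * (n : ℝ) ^ (1 / 2 : ℝ) :=
    fun n hn => PS_le h ε κ C hε1 n hn
  set W : ℂ → ℂ := fun s => (∑' p, dd LL ell p s) - κ * LSeries pr s - ε * (EE C m s + C) with hW
  have hWd : DifferentiableOn ℂ W {s | 1 < s.re} := by
    apply DifferentiableOn.sub
    · exact (DD_differentiable h).sub (pr_differentiable.const_mul _)
    · exact ((EE_differentiable hKc0 hPS).add_const _).const_mul _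
  have hrel : ∀ s : ℂ, 3 / 2 < s.re →
      F s = exp (W s + ε * (s - 1) * LSeries (fun n => (PS C m n : ℂ)) s) := by
    intro s hs
    have hFe := prod_eq h hs (hprod s hs)
    have hP := P_hasSum h ε κ hs
    have hab := abel_rel hKc0 hPS s hs _ hP
    rw [hFe]
    congr 1
    have e6 : (ε : ℂ) * (s - 1) * LSeries (fun n => (PS C m n : ℂ)) s =
        ε * (EE C m s + C + ε * (κ * LSeries pr s - ∑' n : ℕ, (ell n : ℂ) * (n : ℂ) ^ (1 - s))) := by
      rw [← hab]; ring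
    rw [e6, hW]
    simp only
    linear_combination (-(κ * LSeries pr s - ∑' n : ℕ, (ell n : ℂ) * (n : ℂ) ^ (1 - s))) * hε2
  obtain ⟨habs, hall⟩ := coreE (PS C m) hG ε hε 1 F W hF1 hF2 hWd (fun s hs => PS_summable hPS s hs)
    (fun s hs => by rw [pow_one]; exact hrel s hs)
  refine ⟨⟨fun s => exp (W s + ε * (s - 1) * LSeries (fun n => (PS C m n : ℂ)) s), ?_,
    fun s _ => Complex.exp_ne_zero _, fun s hs => (hrel s hs).symm⟩, ?_⟩
  · apply DifferentiableOn.cexp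
    apply hWd.add
    apply DifferentiableOn.mul (by fun_prop)
    intro s hs
    refine (LSeries_analyticOnNhd _ s ?_).differentiableAt.differentiableWithinAt
    exact lt_of_le_of_lt habs (by exact_mod_cast hs)
  obtain ⟨K1, hK1⟩ := DD_bound h
  obtain ⟨C1, hC1⟩ := Pool.Agent.H341R2.lam_bounded
  refine ⟨K1 + |κ| * C1 + (2 * Kc * K32 + |C|), ?_⟩
  have hw1 : ∀ᶠ w : ℝ in 𝓝[>] 0, w ≤ 1 := by
    have : Set.Iic (1 : ℝ) ∈ 𝓝 (0 : ℝ) := Iic_mem_nhds one_pos
    exact mem_nhdsWithin_of_mem_nhds this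
  filter_upwards [hK1, hC1, self_mem_nhdsWithin, hw1] with w h1 h2 h3 h4
  have hw : (0 : ℝ) < w := h3
  have hre : (1 : ℝ) < ((1 : ℂ) + w).re := by simp [hw]
  have h5 := (hall (1 + w) (by linarith)).eq_of_nhds
  rw [Complex.ofReal_add, Complex.ofReal_one, pow_one] at h5
  have h6 : Real.log ‖F (1 + w)‖ = (W (1 + w)).re +
      (ε * ((1 + w : ℂ) - 1) * LSeries (fun n => (PS C m n : ℂ)) (1 + w)).re := by
    rw [h5, Complex.norm_exp, Real.log_exp, add_re]
  have h7 : (ε * ((1 + w : ℂ) - 1) * LSeries (fun n => (PS C m n : ℂ)) (1 + w)).re =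
      ε * (w * (LSeries (fun n => (PS C m n : ℂ)) ((1 + w : ℝ) : ℂ)).re) := by
    have e1 : (ε : ℂ) * ((1 + w : ℂ) - 1) = ((ε * w : ℝ) : ℂ) := by push_cast; ring
    have e2 : ((1 : ℂ) + w) = ((1 + w : ℝ) : ℂ) := by push_cast; rfl
    rw [e1, Complex.re_ofReal_mul, e2]
    ring
  have h8 := re_LSeries_nonneg (PS C m) hG (1 + w)
  have h9 : 0 ≤ w * (LSeries (fun n => (PS C m n : ℂ)) ((1 + w : ℝ) : ℂ)).re := mul_nonneg hw.le h8
  have h10 : ε * Real.log ‖F (1 + w)‖ = ε * (W (1 + w)).re +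
      w * (LSeries (fun n => (PS C m n : ℂ)) ((1 + w : ℝ) : ℂ)).re := by
    rw [h6, h7, mul_add, ← mul_assoc ε ε, hε3, one_mul]
  rw [h10]
  have h11 : (W (1 + w)).re = (∑' p, dd LL ell p (1 + w)).re - κ * Pool.Agent.H341R2.lam w -
      ε * ((EE C m (1 + w)).re + C) := by
    rw [hW]
    simp only
    rw [pr_eq_lam hw]
    simp only [sub_re, re_ofReal_mul, add_re, ofReal_re]
  have h12 : |(∑' p, dd LL ell p (1 + w)).re| ≤ K1 := (Complex.abs_re_le_norm _).trans h1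
  have h13 : |(EE C m (1 + w)).re| ≤ 2 * Kc * K32 := by
    refine (Complex.abs_re_le_norm _).trans ((EE_bound hKc0 hPS (1 + w) hre.le).2.trans ?_)
    have e3 : ‖(1 : ℂ) + w - 1‖ = w := by
      rw [add_sub_cancel_left, Complex.norm_real, Real.norm_eq_abs, abs_of_pos hw]
    have e4 : ‖(1 : ℂ) + w‖ = 1 + w := by
      have : ((1 : ℂ) + w) = ((1 + w : ℝ) : ℂ) := by push_cast; rfl
      rw [this, Complex.norm_real, Real.norm_eq_abs, abs_of_pos (by linarith)]
    rw [e3, e4]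
    have hK32 : 0 ≤ K32 := tsum_nonneg fun n => by positivity
    have e5 : w * (1 + w) ≤ 2 := by nlinarith
    calc w * (1 + w) * Kc * K32 ≤ 2 * Kc * K32 := by gcongr
      _ = _ := rfl
  rw [h11]
  have h14 : |κ * (Pool.Agent.H341R2.lam w + Real.log w)| ≤ |κ| * C1 := by
    rw [abs_mul]; exact mul_le_mul_of_nonneg_left h2 (abs_nonneg _)
  have h15 := abs_le.1 h12
  have h16 := abs_le.1 h13
  have h17 := abs_le.1 h14
  have h18 := abs_le.1 (le_refl |C|)
  rcases hε with h | h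
  · rw [h]
    nlinarith [h15.1, h16.1, h16.2, h17.1, h17.2, h18.1, h18.2]
  · rw [h]
    nlinarith [h15.1, h15.2, h16.1, h16.2, h17.1, h17.2, h18.1, h18.2]

/-- The abstract theorem, for logarithmic averages. -/
theorem main_absR2 (h : Loc LL ell A) (ε κ C : ℝ) (hε : ε = 1 ∨ ε = -1)
    (hG : ∀ n, 0 ≤ AS C (mm ell ε κ) n) (F : ℂ → ℂ)
    (hprod : ∀ s : ℂ, 3 / 2 < s.re → HasProd (fun p : ℕ => exp (LL p s)) (F s))
    (hF1 : ε = 1 → ∀ σ : ℝ, 1 < σ → σ ≤ 3 / 2 → AnalyticAt ℂ F σ)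
    (hF2 : ε = -1 → ∀ σ : ℝ, 1 < σ → σ ≤ 3 / 2 → AnalyticAt ℂ (fun s => (F s)⁻¹) σ) :
    Cont F ∧
    ∃ K : ℝ, ∀ᶠ w : ℝ in 𝓝[>] 0, ε * (κ * Real.log w) - K ≤ ε * Real.log ‖F (1 + w)‖ := by
  have hε1 : |ε| = 1 := by rcases hε with h | h <;> rw [h] <;> simp
  have hε2 : (ε : ℂ) * ε = 1 := by
    rcases hε with h | h <;> rw [h] <;> push_cast <;> ring
  have hε3 : ε * ε = 1 := by rcases hε with h | h <;> rw [h] <;> norm_num
  have hApos := h.pos
  set m := mm ell ε κ with hm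
  set Kc : ℝ := |C| + 2 * (|κ| + A) with hKc
  have hKc0 : 0 ≤ Kc := by positivity
  have hPS : ∀ n : ℕ, 1 ≤ n → |PS C m n| ≤ Kc * (n : ℝ) ^ (1 / 2 : ℝ) :=
    fun n hn => PS_le h ε κ C hε1 n hn
  have hAS : ∀ n : ℕ, 1 ≤ n → |AS C m n| ≤ 2 * Kc * (n : ℝ) ^ (1 / 2 : ℝ) :=
    fun n _ => AS_le hKc0 hPS n
  set E2 : ℂ → ℂ := EE 0 (fun k => PS C m k / k) with hE2
  set W : ℂ → ℂ := fun s => (∑' p, dd LL ell p s) - κ * LSeries pr s - ε * (EE C m s + C)
    - ε * ((s - 1) * E2 s) with hW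
  have hWd : DifferentiableOn ℂ W {s | 1 < s.re} := by
    apply DifferentiableOn.sub
    · apply DifferentiableOn.sub
      · exact (DD_differentiable h).sub (pr_differentiable.const_mul _)
      · exact ((EE_differentiable hKc0 hPS).add_const _).const_mul _
    · apply DifferentiableOn.const_mul
      apply DifferentiableOn.mul (by fun_prop)
      exact EE_differentiable (by positivity : (0 : ℝ) ≤ 2 * Kc) hAS
  have hrel : ∀ s : ℂ, 3 / 2 < s.re →
      F s = exp (W s + ε * (s - 1) ^ 2 * LSeries (fun n => (AS C m n : ℂ)) s) := by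
    intro s hs
    have hs1 : 1 < s.re := by linarith
    have hFe := prod_eq h hs (hprod s hs)
    have hP := P_hasSum h ε κ hs
    have hab := abel_rel hKc0 hPS s hs _ hP
    have hP2 : HasSum (fun n : ℕ => ((PS C m (n + 1) / ((n + 1 : ℕ) : ℝ) : ℝ) : ℂ) * ((n + 1 : ℕ) : ℂ) ^ (1 - s))
        (LSeries (fun n => (PS C m n : ℂ)) s) := by
      have h3 : HasSum (LSeries.term (fun n => (PS C m n : ℂ)) s) (LSeries (fun n => (PS C m n : ℂ)) s) :=
        (PS_summable hPS s hs).hasSum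
      have h4 := (hasSum_nat_add_iff' (f := LSeries.term (fun n => (PS C m n : ℂ)) s) 1).2 h3
      simp only [sum_range_one, LSeries.term_zero, sub_zero] at h4
      have e : (fun n : ℕ => ((PS C m (n + 1) / ((n + 1 : ℕ) : ℝ) : ℝ) : ℂ) * ((n + 1 : ℕ) : ℂ) ^ (1 - s)) =
          fun n => LSeries.term (fun n => (PS C m n : ℂ)) s (n + 1) := by
        funext n
        have hn : ((n + 1 : ℕ) : ℂ) ≠ 0 := by exact_mod_cast (by omega : n + 1 ≠ 0)
        have hns : ((n + 1 : ℕ) : ℂ) ^ s ≠ 0 := by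
          rw [Complex.cpow_ne_zero_iff]; exact Or.inl hn
        rw [LSeries.term_of_ne_zero (by omega : n + 1 ≠ 0), sub_eq_add_neg 1 s,
          Complex.cpow_add _ _ hn, Complex.cpow_one, Complex.cpow_neg]
        push_cast at hn hns ⊢
        field_simp
      rw [e]
      exact h4
    have hab2 := abel_rel (C := 0) (m := fun k => PS C m k / k) (by positivity : (0 : ℝ) ≤ 2 * Kc) hAS s hs _ hP2
    have hab2' : (s - 1) * LSeries (fun n => (AS C m n : ℂ)) s = E2 s + LSeries (fun n => (PS C m n : ℂ)) s := by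
      have := hab2
      simp only [Complex.ofReal_zero, add_zero] at this
      exact this
    rw [hFe]
    congr 1
    have e6 : (ε : ℂ) * (s - 1) ^ 2 * LSeries (fun n => (AS C m n : ℂ)) s =
        ε * ((s - 1) * E2 s) + ε * (EE C m s + C + ε * (κ * LSeries pr s -
          ∑' n : ℕ, (ell n : ℂ) * (n : ℂ) ^ (1 - s))) := by
      have e7 : (ε : ℂ) * (s - 1) ^ 2 * LSeries (fun n => (AS C m n : ℂ)) s =
          ε * ((s - 1) * ((s - 1) * LSeries (fun n => (AS C m n : ℂ)) s)) := by ring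
      rw [e7, hab2', ← hab]; ring
    rw [e6, hW]
    simp only
    linear_combination (-(κ * LSeries pr s - ∑' n : ℕ, (ell n : ℂ) * (n : ℂ) ^ (1 - s))) * hε2
  obtain ⟨habs, hall⟩ := coreE (AS C m) hG ε hε 2 F W hF1 hF2 hWd (fun s hs => PS_summable hAS s hs)
    hrel
  refine ⟨⟨fun s => exp (W s + ε * (s - 1) ^ 2 * LSeries (fun n => (AS C m n : ℂ)) s), ?_,
    fun s _ => Complex.exp_ne_zero _, fun s hs => (hrel s hs).symm⟩, ?_⟩
  · apply DifferentiableOn.cexp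
    apply hWd.add
    apply DifferentiableOn.mul (by fun_prop)
    intro s hs
    refine (LSeries_analyticOnNhd _ s ?_).differentiableAt.differentiableWithinAt
    exact lt_of_le_of_lt habs (by exact_mod_cast hs)
  obtain ⟨K1, hK1⟩ := DD_bound h
  obtain ⟨C1, hC1⟩ := Pool.Agent.H341R2.lam_bounded
  refine ⟨K1 + |κ| * C1 + (2 * Kc * K32 + |C|) + 4 * Kc * K32, ?_⟩
  have hw1 : ∀ᶠ w : ℝ in 𝓝[>] 0, w ≤ 1 := by
    have : Set.Iic (1 : ℝ) ∈ 𝓝 (0 : ℝ) := Iic_mem_nhds one_pos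
    exact mem_nhdsWithin_of_mem_nhds this
  filter_upwards [hK1, hC1, self_mem_nhdsWithin, hw1] with w h1 h2 h3 h4
  have hw : (0 : ℝ) < w := h3
  have hre : (1 : ℝ) < ((1 : ℂ) + w).re := by simp [hw]
  have h5 := (hall (1 + w) (by linarith)).eq_of_nhds
  rw [Complex.ofReal_add, Complex.ofReal_one] at h5
  have h6 : Real.log ‖F (1 + w)‖ = (W (1 + w)).re +
      (ε * ((1 + w : ℂ) - 1) ^ 2 * LSeries (fun n => (AS C m n : ℂ)) (1 + w)).re := by
    rw [h5, Complex.norm_exp, Real.log_exp, add_re]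
  have h7 : (ε * ((1 + w : ℂ) - 1) ^ 2 * LSeries (fun n => (AS C m n : ℂ)) (1 + w)).re =
      ε * (w ^ 2 * (LSeries (fun n => (AS C m n : ℂ)) ((1 + w : ℝ) : ℂ)).re) := by
    have e1 : (ε : ℂ) * ((1 + w : ℂ) - 1) ^ 2 = ((ε * w ^ 2 : ℝ) : ℂ) := by push_cast; ring
    have e2 : ((1 : ℂ) + w) = ((1 + w : ℝ) : ℂ) := by push_cast; rfl
    rw [e1, Complex.re_ofReal_mul, e2]
    ring
  have h8 := re_LSeries_nonneg (AS C m) hG (1 + w)
  have h9 : 0 ≤ w ^ 2 * (LSeries (fun n => (AS C m n : ℂ)) ((1 + w : ℝ) : ℂ)).re := mul_nonneg (by positivity) h8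
  have h10 : ε * Real.log ‖F (1 + w)‖ = ε * (W (1 + w)).re +
      w ^ 2 * (LSeries (fun n => (AS C m n : ℂ)) ((1 + w : ℝ) : ℂ)).re := by
    rw [h6, h7, mul_add, ← mul_assoc ε ε, hε3, one_mul]
  rw [h10]
  have h11 : (W (1 + w)).re = (∑' p, dd LL ell p (1 + w)).re - κ * Pool.Agent.H341R2.lam w -
      ε * ((EE C m (1 + w)).re + C) - ε * (w * (E2 (1 + w)).re) := by
    rw [hW]
    simp only
    rw [pr_eq_lam hw]
    have e8 : ((1 : ℂ) + w - 1) * E2 (1 + w) = (w : ℂ) * E2 (1 + w) := by ring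
    rw [e8]
    simp only [sub_re, re_ofReal_mul, add_re, ofReal_re]
  have h12 : |(∑' p, dd LL ell p (1 + w)).re| ≤ K1 := (Complex.abs_re_le_norm _).trans h1
  have h13 : |(EE C m (1 + w)).re| ≤ 2 * Kc * K32 := by
    refine (Complex.abs_re_le_norm _).trans ((EE_bound hKc0 hPS (1 + w) hre.le).2.trans ?_)
    have e3 : ‖(1 : ℂ) + w - 1‖ = w := by
      rw [add_sub_cancel_left, Complex.norm_real, Real.norm_eq_abs, abs_of_pos hw]
    have e4 : ‖(1 : ℂ) + w‖ = 1 + w := by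
      have : ((1 : ℂ) + w) = ((1 + w : ℝ) : ℂ) := by push_cast; rfl
      rw [this, Complex.norm_real, Real.norm_eq_abs, abs_of_pos (by linarith)]
    rw [e3, e4]
    have hK32 : 0 ≤ K32 := tsum_nonneg fun n => by positivity
    have e5 : w * (1 + w) ≤ 2 := by nlinarith
    calc w * (1 + w) * Kc * K32 ≤ 2 * Kc * K32 := by gcongr
      _ = _ := rfl
  have hK32 : 0 ≤ K32 := tsum_nonneg fun n => by positivity
  have h13b : |w * (E2 (1 + w)).re| ≤ 4 * Kc * K32 := by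
    rw [abs_mul, abs_of_pos hw]
    have h20 : |(E2 (1 + w)).re| ≤ 4 * Kc * K32 := by
      refine (Complex.abs_re_le_norm _).trans
        ((EE_bound (by positivity : (0 : ℝ) ≤ 2 * Kc) hAS (1 + w) hre.le).2.trans ?_)
      have e3 : ‖(1 : ℂ) + w - 1‖ = w := by
        rw [add_sub_cancel_left, Complex.norm_real, Real.norm_eq_abs, abs_of_pos hw]
      have e4 : ‖(1 : ℂ) + w‖ = 1 + w := by
        have : ((1 : ℂ) + w) = ((1 + w : ℝ) : ℂ) := by push_cast; rfl
        rw [this, Complex.norm_real, Real.norm_eq_abs, abs_of_pos (by linarith)]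
      rw [e3, e4]
      have e5 : w * (1 + w) ≤ 2 := by nlinarith
      calc w * (1 + w) * (2 * Kc) * K32 ≤ 2 * (2 * Kc) * K32 := by gcongr
        _ = 4 * Kc * K32 := by ring
    have h21 : 0 ≤ 4 * Kc * K32 := by positivity
    nlinarith [abs_nonneg (E2 (1 + w)).re]
  rw [h11]
  have h14 : |κ * (Pool.Agent.H341R2.lam w + Real.log w)| ≤ |κ| * C1 := by
    rw [abs_mul]; exact mul_le_mul_of_nonneg_left h2 (abs_nonneg _)
  have h15 := abs_le.1 h12
  have h16 := abs_le.1 h13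
  have h17 := abs_le.1 h14
  have h18 := abs_le.1 (le_refl |C|)
  have h19 := abs_le.1 h13b
  rcases hε with h | h
  · rw [h]
    nlinarith [h15.1, h16.1, h16.2, h17.1, h17.2, h18.1, h18.2, h19.1, h19.2]
  · rw [h]
    nlinarith [h15.1, h15.2, h16.1, h16.2, h17.1, h17.2, h18.1, h18.2, h19.1, h19.2]

/-- the order of vanishing from a bound on the real axis -/
lemma order_of_boundM {F : ℂ → ℂ} (hF : MeromorphicAt F 1) (ε κ K : ℝ) (hε : ε = 1 ∨ ε = -1)
    (hK : ∀ᶠ w : ℝ in 𝓝[>] 0, ε * (κ * Real.log w) - K ≤ ε * Real.log ‖F (1 + w)‖)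
    (m : ℤ) (hm : meromorphicOrderAt F 1 = m) : ε * (m - κ) ≤ 0 := by
  obtain ⟨C3, hC3⟩ := Pool.Agent.H341R2.log_norm_meromorphic hF hm
  by_contra hcon
  push Not at hcon
  have hbot : Tendsto (fun w : ℝ => Real.log w) (𝓝[>] 0) atBot := Real.tendsto_log_nhdsGT_zero
  have hev : ∀ᶠ w : ℝ in 𝓝[>] 0, ε * (m - κ) * Real.log w < -(K + |C3|) := by
    have := hbot.const_mul_atBot hcon
    exact this.eventually (eventually_lt_atBot _)
  obtain ⟨w, hw1, hw2, hw3⟩ := (hK.and (hC3.and hev)).exists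
  have h5 := hw2.2
  have h6 := le_abs_self C3
  have h7 := abs_le.1 h5
  have e2 : ε * (m - κ) * Real.log w = ε * (m * Real.log w) - ε * (κ * Real.log w) := by ring
  rw [e2] at hw3
  rcases hε with h | h
  · rw [h] at hw1 hw3
    linarith [h7.1, h7.2]
  · rw [h] at hw1 hw3
    linarith [h7.1, h7.2]

/-- The final theorem in weight one. -/
theorem mainR (h : Loc LL ell A) {F : ℂ → ℂ}
    (hprod : ∀ s : ℂ, 3 / 2 < s.re → HasProd (fun p : ℕ => exp (LL p s)) (F s))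
    (hmer : MeromorphicAt F 1) (k : ℤ) (hk : meromorphicOrderAt F 1 = k) :
    ((∀ σ : ℝ, 1 < σ → σ ≤ 3 / 2 → AnalyticAt ℂ F σ) → ∀ κ C : ℝ,
      ((∀ᶠ x : ℕ in atTop, Gen.LA (Gen.lE ell) κ x ≤ C) ∨
        ∀ᶠ x : ℕ in atTop, Gen.lE ell x - κ * Real.log (Real.log x) ≤ C) →
      (k : ℝ) ≤ κ ∧ Cont F) ∧
    ((∀ σ : ℝ, 1 < σ → σ ≤ 3 / 2 → AnalyticAt ℂ (fun s => (F s)⁻¹) σ) → ∀ κ C : ℝ,
      ((∀ᶠ x : ℕ in atTop, C ≤ Gen.LA (Gen.lE ell) κ x) ∨
        ∀ᶠ x : ℕ in atTop, C ≤ Gen.lE ell x - κ * Real.log (Real.log x)) →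
      κ ≤ k ∧ Cont F) := by
  have hlog : ∀ᶠ x : ℕ in atTop, (1 : ℝ) < Real.log x :=
    (Real.tendsto_log_atTop.comp tendsto_natCast_atTop_atTop).eventually_gt_atTop _
  refine ⟨fun hF κ C hb => ?_, fun hF κ C hb => ?_⟩
  · rcases hb with hb | hb
    · obtain ⟨C', hC'⟩ := exists_const2 h 1 κ (Or.inl rfl) C (by
        filter_upwards [hb, hlog] with n hn1 hn2
        unfold Gen.LA at hn1
        rw [div_le_iff₀ (by linarith)] at hn1
        rw [one_mul]
        exact hn1)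
      obtain ⟨h1, K, hK⟩ := main_absR2 h 1 κ C' (Or.inl rfl) hC' F hprod (fun _ => hF)
        (fun h0 => by norm_num at h0)
      have h2 := order_of_boundM hmer 1 κ K (Or.inl rfl) hK k hk
      exact ⟨by linarith, h1⟩
    · obtain ⟨C', hC'⟩ := exists_const h 1 κ (Or.inl rfl) C (by
        filter_upwards [hb] with n hn1
        linarith)
      obtain ⟨h1, K, hK⟩ := main_absR h 1 κ C' (Or.inl rfl) hC' F hprod (fun _ => hF)
        (fun h0 => by norm_num at h0)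
      have h2 := order_of_boundM hmer 1 κ K (Or.inl rfl) hK k hk
      exact ⟨by linarith, h1⟩
  · rcases hb with hb | hb
    · obtain ⟨C', hC'⟩ := exists_const2 h (-1) κ (Or.inr rfl) (-C) (by
        filter_upwards [hb, hlog] with n hn1 hn2
        unfold Gen.LA at hn1
        rw [le_div_iff₀ (by linarith)] at hn1
        linarith)
      obtain ⟨h1, K, hK⟩ := main_absR2 h (-1) κ C' (Or.inr rfl) hC' F hprod
        (fun h0 => by norm_num at h0) (fun _ => hF)
      have h2 := order_of_boundM hmer (-1) κ K (Or.inr rfl) hK k hk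
      exact ⟨by linarith, h1⟩
    · obtain ⟨C', hC'⟩ := exists_const h (-1) κ (Or.inr rfl) (-C) (by
        filter_upwards [hb] with n hn1
        linarith)
      obtain ⟨h1, K, hK⟩ := main_absR h (-1) κ C' (Or.inr rfl) hC' F hprod
        (fun h0 => by norm_num at h0) (fun _ => hF)
      have h2 := order_of_boundM hmer (-1) κ K (Or.inr rfl) hK k hk
      exact ⟨by linarith, h1⟩

end Pool.Agent.H56R3.BSD
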