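import Pool.Agent.H56R3.BSD.GenR
import Pool.Agent.H438R3.BSD.Jac

/-! Central partial Euler products for motives of odd weight over the rational numbers, under
continuation along the real half line only; the traces of Frobenius in the tensor category generated by
the first cohomology groups of hyperelliptic curves satisfy the required bound. -/

set_option autoImplicit false

open Filter Topology Finset

namespace Pool.Agent.H56R3.BSD.Mot

open Pool.Agent.H341R2 (GoodPrime traceH1)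
open Pool.Agent.H438R3.BSD

/-! ### Definitions -/

/-- The bound of Deligne for the traces `t p m` of `Frob_p^m`, `p ∈ S`, on a cohomology group of
weight `2 i + 1`. -/
def WeilBound (S : Nat.Primes → Prop) (t : Nat.Primes → ℕ → ℝ) (i : ℕ) (B : ℝ) : Prop :=
  ∀ p : Nat.Primes, S p → ∀ m : ℕ, 1 ≤ m →
    |t p m| ≤ B * ((p : ℕ) : ℝ) ^ ((m : ℝ) * (2 * i + 1) / 2)

open Classical in
/-- `G` is given for `Re s > i + 3/2` by the Euler product with the factors
`exp(∑_{m ≥ 1} t p m * p^(-m s) / m)`, `p ∈ S` -/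
def IsL (S : Nat.Primes → Prop) (t : Nat.Primes → ℕ → ℝ) (i : ℕ) (G : ℂ → ℂ) : Prop :=
  ∀ s : ℂ, (i : ℝ) + 3 / 2 < s.re →
    HasProd (fun p : Nat.Primes => if S p then
      Complex.exp (∑' m : ℕ, (t p (m + 1) : ℂ) *
        ((p : ℕ) : ℂ) ^ (-((m + 1 : ℂ) * s)) / (m + 1 : ℂ)) else 1) (G s)

/-- the inverse of the Euler factor at the central point `s = i + 1` -/
noncomputable def localVal (t : Nat.Primes → ℕ → ℝ) (i : ℕ) (p : Nat.Primes) : ℝ :=
  Real.exp (-∑' m : ℕ, t p (m + 1) / (((m : ℝ) + 1) * ((p : ℕ) : ℝ) ^ ((m + 1) * (i + 1))))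

open Classical in
/-- the product of `localVal` over the primes `p ∈ S`, `p ≤ x` -/
noncomputable def EP (S : Nat.Primes → Prop) (t : Nat.Primes → ℕ → ℝ) (i x : ℕ) : ℝ :=
  ∏ p ∈ Finset.Icc 1 x, if h : p.Prime then
    (if S ⟨p, h⟩ then localVal t i ⟨p, h⟩ else 1) else 1

/-- the logarithmic average of `log EP(k) - κ log log k` over `2 ≤ k ≤ x` -/
noncomputable def LA (S : Nat.Primes → Prop) (t : Nat.Primes → ℕ → ℝ) (i : ℕ) (κ : ℝ) (x : ℕ) : ℝ :=
  (∑ k ∈ Finset.Icc 2 x, (Real.log (EP S t i k) - κ * Real.log (Real.log k)) / k) / Real.log x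

/-- the Euler product has an analytic continuation without zeros to the half plane `Re s > i + 1` -/
def ZeroFree (i : ℕ) (G : ℂ → ℂ) : Prop :=
  ∃ H : ℂ → ℂ, DifferentiableOn ℂ H {s | (i : ℝ) + 1 < s.re} ∧
    (∀ s : ℂ, (i : ℝ) + 1 < s.re → H s ≠ 0) ∧ ∀ s : ℂ, (i : ℝ) + 3 / 2 < s.re → H s = G s

/-! ### Reduction to weight one -/

/-- `p` is a prime in `S` -/
def goodM (S : Nat.Primes → Prop) (p : ℕ) : Prop := ∃ h : p.Prime, S ⟨p, h⟩

/-- the trace divided by `p ^ (m i)` -/
noncomputable def cM (t : Nat.Primes → ℕ → ℝ) (i : ℕ) (p m : ℕ) : ℝ :=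
  if h : p.Prime then t ⟨p, h⟩ m / (p : ℝ) ^ (m * i) else 0

lemma cM_le {S : Nat.Primes → Prop} {t : Nat.Primes → ℕ → ℝ} {i : ℕ} {B : ℝ}
    (hB : WeilBound S t i B) (p : ℕ) (hp : goodM S p) (m : ℕ)
    (hm : 1 ≤ m) : |cM t i p m| ≤ |B| * (p : ℝ) ^ ((m : ℝ) / 2) := by
  obtain ⟨h, hg⟩ := hp
  have hp0 : (0 : ℝ) < p := by exact_mod_cast h.pos
  unfold cM
  rw [dif_pos h]
  have h1 := hB ⟨p, h⟩ hg m hm
  rw [abs_div, abs_of_pos (by positivity : (0 : ℝ) < (p : ℝ) ^ (m * i)), div_le_iff₀ (by positivity)]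
  have e2 : (p : ℝ) ^ ((m : ℝ) * (2 * i + 1) / 2) = (p : ℝ) ^ ((m : ℝ) / 2) * (p : ℝ) ^ (m * i) := by
    rw [← Real.rpow_natCast, ← Real.rpow_add hp0]
    congr 1
    push_cast
    ring
  change |t ⟨p, h⟩ m| ≤ B * (p : ℝ) ^ ((m : ℝ) * (2 * i + 1) / 2) at h1
  rw [e2] at h1
  refine h1.trans ?_
  rw [mul_assoc]
  exact mul_le_mul_of_nonneg_right (le_abs_self B) (by positivity)

open Classical in
/-- the logarithm of `EP` -/
noncomputable def lM (S : Nat.Primes → Prop) (t : Nat.Primes → ℕ → ℝ) (i : ℕ) (x : ℕ) : ℝ :=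
  ∑ p ∈ Finset.Icc 1 x, if h : p.Prime then
    (if S ⟨p, h⟩ then
      -∑' m : ℕ, t ⟨p, h⟩ (m + 1) /
        (((m : ℝ) + 1) * (p : ℝ) ^ ((m + 1) * (i + 1))) else 0) else 0

open Classical in
lemma lM_eq (S : Nat.Primes → Prop) (t : Nat.Primes → ℕ → ℝ) (i : ℕ) (x : ℕ) :
    lM S t i x = Gen.lE (Gen.ellc (goodM S) (cM t i)) x := by
  unfold lM Gen.lE
  refine Finset.sum_congr rfl fun p _ => ?_
  unfold Gen.ellc
  by_cases h : p.Prime
  · rw [dif_pos h]
    by_cases hg : S ⟨p, h⟩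
    · have hp0 : (0 : ℝ) < p := by exact_mod_cast h.pos
      rw [if_pos hg, if_pos (show goodM S p from ⟨h, hg⟩)]
      congr 1
      refine tsum_congr fun m => ?_
      unfold cM
      rw [dif_pos h]
      have e : (p : ℝ) ^ (-((m : ℝ) + 1)) = ((p : ℝ) ^ (m + 1))⁻¹ := by
        rw [Real.rpow_neg hp0.le]
        congr 1
        have : (m : ℝ) + 1 = ((m + 1 : ℕ) : ℝ) := by push_cast; rfl
        rw [this, Real.rpow_natCast]
      rw [e, Nat.mul_succ, pow_add]
      field_simp
    · rw [if_neg hg, if_neg (fun hh : goodM S p => hg hh.2)]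
  · rw [dif_neg h, if_neg (fun hh : goodM S p => h hh.1)]

open Classical in
lemma prodM {S : Nat.Primes → Prop} {t : Nat.Primes → ℕ → ℝ} {i : ℕ}
    {G : ℂ → ℂ} (hG : IsL S t i G) (s : ℂ) (hs : 3 / 2 < s.re) :
    HasProd (fun p : ℕ => Complex.exp (Gen.LLc (goodM S) (cM t i) p s)) (G (s + i)) := by
  have h1 := hG (s + i) (by simp; linarith)
  have h2 : HasProd ((fun p : ℕ => Complex.exp (Gen.LLc (goodM S) (cM t i) p s)) ∘
      ((↑) : Nat.Primes → ℕ)) (G (s + i)) := by
    suffices e0 : ((fun p : ℕ => Complex.exp (Gen.LLc (goodM S) (cM t i) p s)) ∘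
        ((↑) : Nat.Primes → ℕ)) =
        (fun p : Nat.Primes => if S p then
      Complex.exp (∑' m : ℕ, (t p (m + 1) : ℂ) *
        ((p : ℕ) : ℂ) ^ (-((m + 1 : ℂ) * (s + i))) / (m + 1 : ℂ)) else 1) by
      rw [e0]; exact h1
    funext p
    simp only [Function.comp_apply]
    unfold Gen.LLc
    have hpc : ((p : ℕ) : ℂ) ≠ 0 := by exact_mod_cast p.2.ne_zero
    by_cases hg : S p
    · rw [if_pos hg, if_pos (show goodM S (p : ℕ) from ⟨p.2, hg⟩)]
      congr 1
      refine tsum_congr fun m => ?_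
      unfold cM
      rw [dif_pos p.2]
      have e1 : ((p : ℕ) : ℂ) ^ (-((m + 1 : ℂ) * (s + i))) =
          ((p : ℕ) : ℂ) ^ (-((m + 1 : ℂ) * s)) / (((p : ℕ) : ℂ) ^ ((m + 1) * i)) := by
        rw [← Complex.cpow_natCast, ← Complex.cpow_sub _ _ hpc]
        congr 1
        push_cast
        ring
      rw [e1]
      push_cast
      ring
    · rw [if_neg hg, if_neg (fun hh : goodM S (p : ℕ) => hg hh.2), Complex.exp_zero]
  have h3 : Function.mulSupport (fun p : ℕ => Complex.exp (Gen.LLc (goodM S) (cM t i) p s)) ⊆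
      Set.range ((↑) : Nat.Primes → ℕ) := by
    intro p hp
    by_contra hcon
    apply hp
    have : ¬ p.Prime := fun h => hcon ⟨⟨p, h⟩, rfl⟩
    simp only
    unfold Gen.LLc
    rw [if_neg (fun hh : goodM S p => this hh.1), Complex.exp_zero]
  exact (Function.Injective.hasProd_iff Subtype.val_injective (fun x hx => by
    by_contra h
    exact hx (h3 h))).1 h2

lemma localVal_pos (t : Nat.Primes → ℕ → ℝ) (i : ℕ) (p : Nat.Primes) : 0 < localVal t i p :=
  Real.exp_pos _

open Classical in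
lemma EP_pos (S : Nat.Primes → Prop) (t : Nat.Primes → ℕ → ℝ) (i x : ℕ) : 0 < EP S t i x := by
  unfold EP
  refine Finset.prod_pos fun p _ => ?_
  split_ifs
  · exact localVal_pos t i _
  · exact one_pos
  · exact one_pos

open Classical in
lemma log_EP (S : Nat.Primes → Prop) (t : Nat.Primes → ℕ → ℝ) (i x : ℕ) :
    Real.log (EP S t i x) = lM S t i x := by
  unfold EP lM
  rw [Real.log_prod]
  · refine Finset.sum_congr rfl fun p _ => ?_
    split_ifs with h1 h2
    · unfold localVal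
      rw [Real.log_exp]
    · exact Real.log_one
    · exact Real.log_one
  · intro p _
    split_ifs
    · exact (localVal_pos t i _).ne'
    · exact one_ne_zero
    · exact one_ne_zero

lemma LA_eq (S : Nat.Primes → Prop) (t : Nat.Primes → ℕ → ℝ) (i : ℕ) (κ : ℝ) (x : ℕ) :
    LA S t i κ x = Gen.LA (lM S t i) κ x := by
  unfold LA Gen.LA
  simp_rw [log_EP]

lemma zeroFree_of_cont {i : ℕ} {G : ℂ → ℂ} (h : Cont (fun s => G (s + i))) : ZeroFree i G := by
  obtain ⟨H, h1, h2, h3⟩ := h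
  refine ⟨fun s => H (s - i), ?_, fun s hs => h2 _ (by simp; linarith), fun s hs => ?_⟩
  · refine h1.comp (by fun_prop) fun s hs => ?_
    have hs' : (i : ℝ) + 1 < s.re := hs
    show 1 < (s - i).re
    simp
    linarith
  · have := h3 (s - i) (by simp; linarith)
    simp only [sub_add_cancel] at this
    exact this

/-- The theorem for all motives of odd weight. -/
theorem general (S : Nat.Primes → Prop) (t : Nat.Primes → ℕ → ℝ) (i : ℕ) (B : ℝ)
    (hB : WeilBound S t i B) (G : ℂ → ℂ) (hG : IsL S t i G) (hmer : MeromorphicAt G (i + 1))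
    (k : ℤ) (hk : meromorphicOrderAt G (i + 1) = k) :
    ((∀ σ : ℝ, (i : ℝ) + 1 < σ → σ ≤ (i : ℝ) + 3 / 2 → AnalyticAt ℂ G σ) → ∀ κ C : ℝ,
      ((∀ᶠ x : ℕ in atTop, LA S t i κ x ≤ C) ∨
        ∀ᶠ x : ℕ in atTop, EP S t i x ≤ C * Real.log x ^ κ) →
      (k : ℝ) ≤ κ ∧ ZeroFree i G) ∧
    ((∀ σ : ℝ, (i : ℝ) + 1 < σ → σ ≤ (i : ℝ) + 3 / 2 → AnalyticAt ℂ (fun s => (G s)⁻¹) σ) →
      ∀ κ C : ℝ, 0 < C →
      ((∀ᶠ x : ℕ in atTop, -C ≤ LA S t i κ x) ∨
        ∀ᶠ x : ℕ in atTop, C * Real.log x ^ κ ≤ EP S t i x) →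
      κ ≤ k ∧ ZeroFree i G) := by
  classical
  have hloc := Gen.locC (good := goodM S) (c := cM t i) (K := |B|)
    (fun p hp => hp.1) (abs_nonneg B) (fun p hp m hm => cM_le hB p hp m hm)
  have e1 : (1 : ℂ) + i = (i : ℂ) + 1 := add_comm _ _
  have hder : deriv (fun s : ℂ => s + i) 1 ≠ 0 := by
    have : deriv (fun s : ℂ => s + i) 1 = 1 := by simp
    rw [this]; exact one_ne_zero
  have han : AnalyticAt ℂ (fun s : ℂ => s + i) 1 := by fun_prop
  have hmer' : MeromorphicAt (fun s => G (s + i)) 1 := by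
    have h3 := MeromorphicAt.comp_analyticAt (f := G) (g := fun s : ℂ => s + i) (x := 1)
      (by rw [e1]; exact hmer) han
    exact h3
  have hk' : meromorphicOrderAt (fun s => G (s + i)) 1 = k := by
    have h3 := meromorphicOrderAt_comp_of_deriv_ne_zero (f := G) han hder
    rw [e1, hk] at h3
    exact h3
  obtain ⟨h1, h2⟩ := mainR hloc (F := fun s => G (s + i)) (prodM hG) hmer' k hk'
  have eL : Gen.lE (Gen.ellc (goodM S) (cM t i)) = lM S t i :=
    funext fun x => (lM_eq S t i x).symm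
  rw [eL] at h1 h2
  have hlog : ∀ᶠ x : ℕ in atTop, (1 : ℝ) < Real.log x :=
    (Real.tendsto_log_atTop.comp tendsto_natCast_atTop_atTop).eventually_gt_atTop _
  have hshift : ∀ {E : ℂ → ℂ},
      (∀ σ : ℝ, (i : ℝ) + 1 < σ → σ ≤ (i : ℝ) + 3 / 2 → AnalyticAt ℂ E σ) →
      ∀ σ : ℝ, 1 < σ → σ ≤ 3 / 2 → AnalyticAt ℂ (fun s => E (s + i)) σ := by
    intro E hE σ hσ hσ2
    have h3 := hE (σ + i) (by linarith) (by linarith)
    have e3 : (((σ + i : ℝ)) : ℂ) = (fun s : ℂ => s + i) (σ : ℂ) := by push_cast; rfl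
    rw [e3] at h3
    exact AnalyticAt.comp (g := E) (f := fun s : ℂ => s + i) h3 (by fun_prop)
  refine ⟨fun hreal κ C hb => ?_, fun hreal κ C hC hb => ?_⟩
  · have h3 : (k : ℝ) ≤ κ ∧ Cont (fun s => G (s + i)) := by
      rcases hb with hb | hb
      · refine h1 (hshift hreal) κ C (Or.inl ?_)
        filter_upwards [hb] with x hx
        rwa [← LA_eq]
      · refine h1 (hshift hreal) κ (Real.log C) (Or.inr ?_)
        filter_upwards [hb, hlog] with x hx hx2
        rw [← log_EP]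
        have h4 : 0 < Real.log (x : ℝ) ^ κ := Real.rpow_pos_of_pos (by linarith) _
        have h5 := EP_pos S t i x
        have hC0 : 0 < C := by
          by_contra hcon
          push Not at hcon
          have := mul_nonpos_of_nonpos_of_nonneg hcon h4.le
          linarith
        have h6 := Real.log_le_log h5 hx
        rw [Real.log_mul hC0.ne' h4.ne', Real.log_rpow (by linarith)] at h6
        linarith
    exact ⟨h3.1, zeroFree_of_cont h3.2⟩
  · have h3 : κ ≤ (k : ℝ) ∧ Cont (fun s => G (s + i)) := by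
      rcases hb with hb | hb
      · refine h2 (hshift hreal) κ (-C) (Or.inl ?_)
        filter_upwards [hb] with x hx
        rwa [← LA_eq]
      · refine h2 (hshift hreal) κ (Real.log C) (Or.inr ?_)
        filter_upwards [hb, hlog] with x hx hx2
        rw [← log_EP]
        have h4 : 0 < Real.log (x : ℝ) ^ κ := Real.rpow_pos_of_pos (by linarith) _
        have h6 := Real.log_le_log (by positivity) hx
        rw [Real.log_mul hC.ne' h4.ne', Real.log_rpow (by linarith)] at h6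
        linarith
    exact ⟨h3.1, zeroFree_of_cont h3.2⟩

/-! ### The tensor category generated by hyperelliptic curves -/

variable {r : ℕ}

/-- The variables are `none`, for the Tate motive, and `some (j, k)`, for the trace of the
`(k + 1)`-st power on `H¹(C_j)`. This is the weight of the variable. -/
def wt (r : ℕ) : Option (Fin r × ℕ) → ℕ
  | none => 2
  | some v => v.2 + 1

/-- The values of the variables for the `m`-th power of the Frobenius at `p`: `p^m` for the Tate
variable, and the trace of `Frob_p^((k + 1) m)` on `H¹(C_j)` for the variable `(j, k)`, where `C_j`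
is the curve `y² = f_j(x)`. -/
noncomputable def val (f : Fin r → Polynomial ℤ) (p : Nat.Primes) (m : ℕ) :
    Option (Fin r × ℕ) → ℝ
  | none => ((p : ℕ) : ℝ) ^ m
  | some v => (Jac.trace (f v.1) p ((v.2 + 1) * m) : ℝ)

/-- The trace of the `m`-th power of the Frobenius at `p` on the motive given by `P`. -/
noncomputable def trace (f : Fin r → Polynomial ℤ) (P : MvPolynomial (Option (Fin r × ℕ)) ℝ)
    (p : Nat.Primes) (m : ℕ) : ℝ :=
  MvPolynomial.eval (val f p m) P

/-- `p` is a prime of good reduction of all the curves `y² = f_j(x)` -/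
def Good (f : Fin r → Polynomial ℤ) (p : Nat.Primes) : Prop := ∀ j, GoodPrime (f j) 1 p

/-- the constants for the variables -/
noncomputable def AA (f : Fin r → Polynomial ℤ) : Option (Fin r × ℕ) → ℝ
  | none => 1
  | some v => 5 * (f v.1).natDegree + 1

lemma AA_pos (f : Fin r → Polynomial ℤ) (v) : 0 ≤ AA f v := by
  cases v with
  | none => simp [AA]
  | some v => simp only [AA]; positivity

lemma sqrt_pow' (a : ℝ) (ha : 0 ≤ a) (k : ℕ) : Real.sqrt (a ^ k) = Real.sqrt a ^ k := by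
  have h : a ^ k = (Real.sqrt a ^ k) ^ 2 := by
    rw [← pow_mul, mul_comm, pow_mul, Real.sq_sqrt ha]
  rw [h, Real.sqrt_sq (pow_nonneg (Real.sqrt_nonneg _) _)]

lemma val_le {f : Fin r → Polynomial ℤ} (hd : ∀ j, 1 ≤ (f j).natDegree) {p : Nat.Primes}
    (hp : Good f p) {m : ℕ} (hm : m ≠ 0) (v : Option (Fin r × ℕ)) :
    |val f p m v| ≤ AA f v * Real.sqrt (((p : ℕ) : ℝ) ^ m) ^ wt r v := by
  have hp0 : (0 : ℝ) < (p : ℕ) := by exact_mod_cast p.2.pos
  cases v with
  | none =>
    simp only [val, AA, wt]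
    rw [one_mul, Real.sq_sqrt (by positivity), abs_of_nonneg (by positivity)]
  | some v =>
    simp only [val, AA, wt]
    have h1 := Pool.Agent.H341R2.traceH1_bound (hp v.1) (hd v.1) ((v.2 + 1) * m)
      (by positivity)
    have e : (((p : ℕ) : ℝ) ^ ((v.2 + 1) * m)) = (((p : ℕ) : ℝ) ^ m) ^ (v.2 + 1) := by
      rw [← pow_mul, mul_comm]
    rw [e, sqrt_pow' _ (by positivity)] at h1
    have e2 : traceH1 (f v.1) 1 p ((v.2 + 1) * m) = Jac.trace (f v.1) p ((v.2 + 1) * m) := rfl
    rw [e2] at h1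
    exact h1

/-- the constant in the bound for the traces -/
noncomputable def BB (f : Fin r → Polynomial ℤ) (P : MvPolynomial (Option (Fin r × ℕ)) ℝ) : ℝ :=
  ∑ d ∈ P.support, |P.coeff d| * ∏ v ∈ d.support, AA f v ^ d v

lemma trace_le {f : Fin r → Polynomial ℤ} (hd : ∀ j, 1 ≤ (f j).natDegree)
    {P : MvPolynomial (Option (Fin r × ℕ)) ℝ} {w : ℕ} (hP : P.IsWeightedHomogeneous (wt r) w)
    {p : Nat.Primes} (hp : Good f p) {m : ℕ} (hm : m ≠ 0) :
    |trace f P p m| ≤ BB f P * Real.sqrt (((p : ℕ) : ℝ) ^ m) ^ w := by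
  unfold trace BB
  rw [MvPolynomial.eval_eq, Finset.sum_mul]
  refine (Finset.abs_sum_le_sum_abs _ _).trans (Finset.sum_le_sum fun d hd' => ?_)
  rw [abs_mul, mul_assoc]
  refine mul_le_mul_of_nonneg_left ?_ (abs_nonneg _)
  rw [Finset.abs_prod]
  have hw : (∏ v ∈ d.support, Real.sqrt (((p : ℕ) : ℝ) ^ m) ^ (wt r v * d v)) =
      Real.sqrt (((p : ℕ) : ℝ) ^ m) ^ w := by
    rw [Finset.prod_pow_eq_pow_sum]
    congr 1
    have h1 := hP (MvPolynomial.mem_support_iff.1 hd')
    rw [Finsupp.weight_apply, Finsupp.sum] at h1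
    rw [← h1]
    refine Finset.sum_congr rfl fun v _ => ?_
    rw [smul_eq_mul, mul_comm]
  rw [← hw, ← Finset.prod_mul_distrib]
  refine Finset.prod_le_prod (fun v _ => abs_nonneg _) fun v _ => ?_
  rw [abs_pow, pow_mul, ← mul_pow]
  exact pow_le_pow_left₀ (abs_nonneg _) (val_le hd hp hm v) _

/-- The bound of Deligne in the tensor category generated by hyperelliptic curves. -/
theorem weilBound_trace (f : Fin r → Polynomial ℤ) (hd : ∀ j, 1 ≤ (f j).natDegree)
    (P : MvPolynomial (Option (Fin r × ℕ)) ℝ) (i : ℕ)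
    (hP : P.IsWeightedHomogeneous (wt r) (2 * i + 1)) :
    WeilBound (Good f) (trace f P) i (BB f P) := by
  intro p hp m hm
  have hp0 : (0 : ℝ) < (p : ℕ) := by exact_mod_cast p.2.pos
  refine (trace_le hd hP hp (m := m) (by omega)).trans (le_of_eq ?_)
  congr 1
  rw [Real.sqrt_eq_rpow, ← Real.rpow_natCast, ← Real.rpow_natCast, ← Real.rpow_mul hp0.le,
    ← Real.rpow_mul hp0.le]
  congr 1
  push_cast
  ring

/-- The sets `S` of primes and traces `t p m`, `p ∈ S`, to which the theorem applies: either the bound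
of Deligne holds for them, or they come from a motive of weight `2 i + 1` in the tensor category
generated by the Tate motive and the first cohomology groups of the hyperelliptic curves
`y² = f_j(x)`, and `S` is the set of the primes of good reduction of these curves. -/
def Admissible (S : Nat.Primes → Prop) (t : Nat.Primes → ℕ → ℝ) (i : ℕ) : Prop :=
  (∃ B : ℝ, WeilBound S t i B) ∨
    ∃ (r : ℕ) (f : Fin r → Polynomial ℤ) (P : MvPolynomial (Option (Fin r × ℕ)) ℝ),
      (∀ j, 1 ≤ (f j).natDegree) ∧ P.IsWeightedHomogeneous (wt r) (2 * i + 1) ∧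
      S = Good f ∧ t = trace f P

lemma Admissible.bound {S : Nat.Primes → Prop} {t : Nat.Primes → ℕ → ℝ} {i : ℕ}
    (h : Admissible S t i) : ∃ B : ℝ, WeilBound S t i B := by
  rcases h with h | ⟨r, f, P, hd, hP, rfl, rfl⟩
  · exact h
  · exact ⟨_, weilBound_trace f hd P i hP⟩

end Pool.Agent.H56R3.BSD.Mot
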